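import Mathlib

/-!
# Strongly surjective linear orders that are not separable

If `L` is an uncountable strongly surjective linear order, then the lexicographic product
`L ×ₗ ℚ` is strongly surjective as well, and it is densely ordered, has no end points and has
`|L|` many pairwise disjoint nonempty open intervals. So it is not separable: in ZFC, if there is
an uncountable strongly surjective linear order, then there is one that is not separable.
-/

namespace Pool.Agent.Results.MP_af603d_lc.DenseNonCCC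

open Cardinal Set

universe u

/-- There is a surjection from `L` to `K` which is order preserving in the weak sense. -/
def MapsOnto (L : Type u) (K : Type u) [LinearOrder L] [LinearOrder K] : Prop :=
  ∃ f : L → K, Monotone f ∧ Function.Surjective f

/-- `L` is strongly surjective: it maps onto each of its (nonempty) suborders. -/
def StronglySurjective (L : Type u) [LinearOrder L] : Prop :=
  ∀ K : Set L, K.Nonempty → MapsOnto L K

section Short

variable {L : Type u} [LinearOrder L]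

/-- Every subset of a strongly surjective linear order has a countable cofinal subset. -/
theorem countable_cofinal (hL : StronglySurjective L) (F : Set L) :
    ∃ C : Set L, C ⊆ F ∧ C.Countable ∧ ∀ x ∈ F, ∃ c ∈ C, x ≤ c := by
  by_contra hcon
  push Not at hcon
  -- `F` has no countable cofinal subset
  have hFne : F.Nonempty := by
    obtain ⟨x, hx, _⟩ := hcon ∅ (empty_subset _) countable_empty
    exact ⟨x, hx⟩
  have hL1 : ¬ ∃ C : Set L, C.Countable ∧ ∀ x, ∃ c ∈ C, x ≤ c := by
    rintro ⟨C, hC, hC'⟩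
    obtain ⟨f, hf, hfs⟩ := hL F hFne
    obtain ⟨x, hx, hx'⟩ := hcon ((fun c => (f c : L)) '' C)
      (by rintro _ ⟨c, _, rfl⟩; exact (f c).2) (hC.image _)
    obtain ⟨y, hy⟩ := hfs ⟨x, hx⟩
    obtain ⟨c, hc, hyc⟩ := hC' y
    have h1 := hf hyc
    rw [hy] at h1
    exact absurd (hx' _ ⟨c, hc, rfl⟩) (not_lt.2 h1)
  -- an increasing sequence in `F`
  have hnext : ∀ x : F, ∃ y : F, x < y := by
    intro x
    obtain ⟨y, hy, hy'⟩ := hcon {x.1} (by rintro _ rfl; exact x.2) (countable_singleton _)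
    exact ⟨⟨y, hy⟩, hy' x.1 rfl⟩
  choose nx hnx using hnext
  let s : ℕ → F := fun n => nx^[n] ⟨hFne.some, hFne.some_mem⟩
  have hs : StrictMono s := by
    refine strictMono_nat_of_lt_succ fun n => ?_
    show nx^[n] _ < nx^[n+1] _
    rw [Function.iterate_succ_apply']
    exact hnx _
  obtain ⟨f, hf, hfs⟩ := hL (range fun n => (s n : L)) ⟨_, 0, rfl⟩
  choose l hl using fun n : ℕ => hfs ⟨(s n : L), n, rfl⟩
  apply hL1
  refine ⟨range l, countable_range l, fun x => ?_⟩
  obtain ⟨m, hm⟩ := (f x).2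
  refine ⟨l (m + 1), ⟨m + 1, rfl⟩, ?_⟩
  by_contra hlt
  have h1 := hf (not_le.1 hlt).le
  rw [hl (m + 1)] at h1
  have h2 : (s (m + 1) : L) ≤ (f x : L) := h1
  rw [← hm] at h2
  exact absurd (hs (Nat.lt_succ_self m)) (not_lt.2 h2)

/-- Strong surjectivity passes to the reverse order. -/
theorem StronglySurjective.dual (hL : StronglySurjective L) : StronglySurjective Lᵒᵈ := by
  intro K hK
  obtain ⟨f, hf, hfs⟩ := hL (OrderDual.toDual ⁻¹' K) hK
  refine ⟨fun x => ⟨OrderDual.toDual (f (OrderDual.ofDual x)).1, (f (OrderDual.ofDual x)).2⟩,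
    ?_, ?_⟩
  · intro x y hxy
    have h1 : OrderDual.ofDual y ≤ OrderDual.ofDual x := hxy
    exact hf h1
  · rintro ⟨y, hy⟩
    obtain ⟨x, hx⟩ := hfs ⟨OrderDual.ofDual y, hy⟩
    refine ⟨OrderDual.toDual x, ?_⟩
    apply Subtype.ext
    show OrderDual.toDual (f x).1 = y
    rw [hx]
    rfl

theorem countable_coinitial (hL : StronglySurjective L) (F : Set L) :
    ∃ C : Set L, C ⊆ F ∧ C.Countable ∧ ∀ x ∈ F, ∃ c ∈ C, c ≤ x := by
  obtain ⟨C, h1, h2, h3⟩ := countable_cofinal hL.dual (OrderDual.ofDual ⁻¹' F)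
  exact ⟨OrderDual.toDual ⁻¹' C, h1, h2, h3⟩

end Short

section Maps

/-- A monotone two-sided sequence which is cofinal and coinitial. -/
theorem exists_seq (F : Type u) [LinearOrder F] (c d : ℕ → F) (hc : ∀ x, ∃ n, x ≤ c n)
    (hd : ∀ x, ∃ n, d n ≤ x) :
    ∃ t : ℤ → F, Monotone t ∧ (∀ x, ∃ n, x ≤ t n) ∧ ∀ x, ∃ n, t n ≤ x := by
  -- upper part
  let a : F := c 0
  let up : ℕ → F := fun n => (Finset.range (n + 1)).sup' ⟨0, by simp⟩ c ⊔ a
  let dn : ℕ → F := fun n => (Finset.range (n + 1)).inf' ⟨0, by simp⟩ d ⊓ a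
  have hup : Monotone up := by
    intro m n hmn
    refine sup_le_sup_right ?_ _
    exact Finset.sup'_mono _ (by simpa using hmn) _
  have hdn : Antitone dn := by
    intro m n hmn
    refine inf_le_inf_right _ ?_
    exact Finset.inf'_mono _ (by simpa using hmn) _
  refine ⟨fun z => if 0 ≤ z then up z.toNat else dn (-z).toNat, ?_, ?_, ?_⟩
  · intro y z hyz
    by_cases h1 : 0 ≤ y
    · have h2 : 0 ≤ z := h1.trans hyz
      simp only [h1, h2, if_true]
      exact hup (Int.toNat_le_toNat hyz)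
    · by_cases h2 : 0 ≤ z
      · simp only [h1, h2, if_true, if_false]
        exact (inf_le_right).trans le_sup_right
      · simp only [h1, h2, if_false]
        exact hdn (Int.toNat_le_toNat (by omega))
  · intro x
    obtain ⟨n, hn⟩ := hc x
    refine ⟨n, ?_⟩
    simp only [Int.natCast_nonneg, if_true, Int.toNat_natCast]
    refine hn.trans ((Finset.le_sup' c ?_).trans le_sup_left)
    simp
  · intro x
    obtain ⟨n, hn⟩ := hd x
    refine ⟨-(n + 1 : ℕ), ?_⟩
    have h : ¬ (0 : ℤ) ≤ -((n + 1 : ℕ) : ℤ) := by push_cast; omega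
    simp only [h, if_false, neg_neg, Int.toNat_natCast]
    refine (inf_le_left.trans ((Finset.inf'_le d ?_))).trans hn
    simp

/-- A countable linear order is a monotone image of the rationals. -/
theorem rat_onto (K : Type u) [LinearOrder K] [Countable K] [Nonempty K] :
    ∃ f : ℚ → K, Monotone f ∧ Function.Surjective f := by
  have : Countable (K ×ₗ ℚ) := inferInstanceAs (Countable (K × ℚ))
  have : Nonempty (K ×ₗ ℚ) := inferInstanceAs (Nonempty (K × ℚ))
  obtain ⟨e⟩ := Order.iso_of_countable_dense (α := ℚ) (β := K ×ₗ ℚ)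
  refine ⟨fun q => (ofLex (e q)).1, ?_, fun k => ⟨e.symm (toLex (k, 0)), by simp⟩⟩
  intro q r hqr
  have h1 : e q ≤ e r := e.monotone hqr
  rcases Prod.Lex.le_iff.1 h1 with h | ⟨h, _⟩
  · exact h.le
  · exact h.le

/-- A bounded countable linear order is the monotone image of each open rational interval, by a
map which is defined everywhere. -/
theorem interval_onto {K : Type u} [LinearOrder K] [Countable K] {k k' : K} (hk : k ≤ k')
    {q q' : ℚ} (hq : q < q') :
    ∃ f : ℚ → K, Monotone f ∧ (∀ r, k ≤ f r ∧ f r ≤ k') ∧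
      ∀ y, k ≤ y → y ≤ k' → ∃ r, q < r ∧ r < q' ∧ f r = y := by
  have : Nonempty (Icc k k') := ⟨⟨k, le_rfl, hk⟩⟩
  obtain ⟨g, hg, hgs⟩ := rat_onto (Icc k k')
  have : Nonempty (Ioo q q') := (nonempty_Ioo.2 hq).to_subtype
  obtain ⟨e⟩ := Order.iso_of_countable_dense (α := Ioo q q') (β := ℚ)
  refine ⟨fun r => if h : r ∈ Ioo q q' then (g (e ⟨r, h⟩)).1 else if r ≤ q then k else k',
    ?_, ?_, ?_⟩
  · intro r s hrs
    by_cases h1 : r ∈ Ioo q q'
    · by_cases h2 : s ∈ Ioo q q'
      · simp only [h1, h2, dif_pos]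
        exact hg (e.monotone hrs)
      · have h3 : ¬ s ≤ q := fun h => absurd (h1.1.trans_le (hrs.trans h)) (lt_irrefl _)
        simp only [h1, h2, h3, dif_pos, dif_neg, not_false_eq_true, if_false]
        exact (g _).2.2
    · by_cases h2 : s ∈ Ioo q q'
      · have h3 : r ≤ q := by
          by_contra h
          exact h1 ⟨not_le.1 h, hrs.trans_lt h2.2⟩
        simp only [h1, h2, h3, dif_pos, dif_neg, not_false_eq_true, if_true]
        exact (g _).2.1
      · simp only [h1, h2, dif_neg, not_false_eq_true]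
        by_cases h3 : s ≤ q
        · simp only [h3, hrs.trans h3, if_true]
          exact le_rfl
        · simp only [h3, if_false]
          split_ifs
          · exact hk
          · exact le_rfl
  · intro r
    by_cases h1 : r ∈ Ioo q q'
    · simp only [h1, dif_pos]
      exact (g _).2
    · simp only [h1, dif_neg, not_false_eq_true]
      split_ifs
      · exact ⟨le_rfl, hk⟩
      · exact ⟨hk, le_rfl⟩
  · intro y hy hy'
    obtain ⟨r, hr⟩ := hgs ⟨y, hy, hy'⟩
    refine ⟨(e.symm r).1, (e.symm r).2.1, (e.symm r).2.2, ?_⟩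
    have h1 : (e.symm r).1 ∈ Ioo q q' := (e.symm r).2
    simp only [h1, dif_pos, Subtype.coe_eta, OrderIso.apply_symm_apply, hr]

/-- If the nonempty linear order `F` has countable cofinality and coinitiality, then `F ×ₗ ℚ` maps
onto every nonempty countable linear order. -/
theorem prod_onto (F : Type u) [LinearOrder F] (K : Type) [LinearOrder K] [Countable K]
    [Nonempty K] (c d : ℕ → F) (hc : ∀ x, ∃ n, x ≤ c n) (hd : ∀ x, ∃ n, d n ≤ x) :
    ∃ f : F ×ₗ ℚ → K, Monotone f ∧ Function.Surjective f := by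
  classical
  obtain ⟨t, ht, htc, htd⟩ := exists_seq F c d hc hd
  obtain ⟨e, he⟩ := exists_surjective_nat K
  obtain ⟨k, hk, hkc, hkd⟩ := exists_seq K e e
    (fun x => by obtain ⟨n, hn⟩ := he x; exact ⟨n, hn.ge⟩)
    (fun x => by obtain ⟨n, hn⟩ := he x; exact ⟨n, hn.le⟩)
  let v : ℤ → F ×ₗ ℚ := fun n => toLex (t n, (n : ℚ))
  have hv : StrictMono v := by
    intro m n hmn
    rw [Prod.Lex.lt_iff]
    rcases (ht hmn.le).lt_or_eq with h | h
    · exact Or.inl h
    · exact Or.inr ⟨h, by show (m : ℚ) < n; exact_mod_cast hmn⟩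
  have hvc : ∀ w, ∃ n, w < v n := by
    intro w
    obtain ⟨n, hn⟩ := htc (ofLex w).1
    obtain ⟨m, hm⟩ := exists_int_gt (ofLex w).2
    refine ⟨max m n, ?_⟩
    rw [Prod.Lex.lt_iff]
    rcases (hn.trans (ht (le_max_right m n))).lt_or_eq with h | h
    · exact Or.inl h
    · refine Or.inr ⟨h, hm.trans_le ?_⟩
      show (m : ℚ) ≤ (max m n : ℤ)
      exact_mod_cast le_max_left m n
  have hvd : ∀ w, ∃ n, v n ≤ w := by
    intro w
    obtain ⟨n, hn⟩ := htd (ofLex w).1
    obtain ⟨m, hm⟩ := exists_int_lt (ofLex w).2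
    refine ⟨min m n, ?_⟩
    rw [Prod.Lex.le_iff]
    rcases ((ht (min_le_right m n)).trans hn).lt_or_eq with h | h
    · exact Or.inl h
    · refine Or.inr ⟨h, le_trans ?_ hm.le⟩
      show ((min m n : ℤ) : ℚ) ≤ m
      exact_mod_cast min_le_left m n
  -- the index of a point
  have hidx : ∀ w, ∃ n, v n ≤ w ∧ w < v (n + 1) := by
    intro w
    obtain ⟨b, hb⟩ := hvc w
    obtain ⟨n, hn, hn'⟩ := Int.exists_greatest_of_bdd (P := fun n => v n ≤ w)
      ⟨b, fun z hz => (hv.lt_iff_lt.1 (lt_of_le_of_lt hz hb)).le⟩ (hvd w)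
    refine ⟨n, hn, ?_⟩
    by_contra h
    have := hn' (n + 1) (not_lt.1 h)
    omega
  choose ix hix1 hix2 using hidx
  have hixu : ∀ w n, v n ≤ w → w < v (n + 1) → ix w = n := by
    intro w n h1 h2
    have h3 : ix w < n + 1 := hv.lt_iff_lt.1 ((hix1 w).trans_lt h2)
    have h4 : n < ix w + 1 := hv.lt_iff_lt.1 (h1.trans_lt (hix2 w))
    omega
  have hixm : Monotone ix := by
    intro w w' hw
    have h1 : ix w < ix w' + 1 := hv.lt_iff_lt.1 ((hix1 w).trans_lt (hw.trans_lt (hix2 w')))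
    omega
  -- the pieces
  have hpc : ∀ n : ℤ, ∃ f : ℚ → K, Monotone f ∧ (∀ r, k n ≤ f r ∧ f r ≤ k (n + 1)) ∧
      ∀ y, k n ≤ y → y ≤ k (n + 1) → ∃ r, (n : ℚ) < r ∧ r < (n : ℚ) + 1 ∧ f r = y :=
    fun n => interval_onto (hk (by omega)) (by linarith)
  choose f hf1 hf2 hf3 using hpc
  refine ⟨fun w => if (ofLex w).1 = t (ix w) then f (ix w) (ofLex w).2 else k (ix w + 1), ?_, ?_⟩
  · intro w w' hw
    have h1 := hixm hw
    rcases h1.lt_or_eq with h1 | h1
    · have h2 : (if (ofLex w).1 = t (ix w) then f (ix w) (ofLex w).2 else k (ix w + 1)) ≤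
          k (ix w + 1) := by
        split_ifs
        · exact (hf2 _ _).2
        · exact le_rfl
      have h3 : k (ix w') ≤
          (if (ofLex w').1 = t (ix w') then f (ix w') (ofLex w').2 else k (ix w' + 1)) := by
        split_ifs
        · exact (hf2 _ _).1
        · exact hk (by omega)
      exact (h2.trans (hk (by omega))).trans h3
    · simp only
      rw [← h1]
      by_cases h2 : (ofLex w).1 = t (ix w)
      · rw [if_pos h2]
        by_cases h3 : (ofLex w').1 = t (ix w)
        · rw [if_pos h3]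
          apply hf1
          rcases Prod.Lex.le_iff.1 hw with h4 | ⟨_, h4⟩
          · rw [h2, h3] at h4
            exact absurd h4 (lt_irrefl _)
          · exact h4
        · rw [if_neg h3]
          exact (hf2 _ _).2
      · rw [if_neg h2]
        have h3 : (ofLex w').1 ≠ t (ix w) := by
          intro h3
          have h4 : (ofLex w).1 ≤ (ofLex w').1 := by
            rcases Prod.Lex.le_iff.1 hw with h | ⟨h, _⟩
            · exact h.le
            · exact h.le
          have h5 : t (ix w) ≤ (ofLex w).1 := by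
            rcases Prod.Lex.le_iff.1 (hix1 w) with h | ⟨h, _⟩
            · exact h.le
            · exact h.le
          exact h2 (le_antisymm (h4.trans h3.le) h5)
        rw [if_neg h3]
  · intro y
    -- find `n` with `k n ≤ y ≤ k (n + 1)`
    have hn : ∃ n, k n ≤ y ∧ y ≤ k (n + 1) := by
      by_cases hb : ∃ b, ∀ z, k z ≤ y → z ≤ b
      · obtain ⟨n, hn, hn'⟩ := Int.exists_greatest_of_bdd (P := fun n => k n ≤ y) hb (hkd y)
        refine ⟨n, hn, ?_⟩
        by_contra h
        have := hn' (n + 1) (not_le.1 h).le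
        omega
      · push Not at hb
        obtain ⟨m, hm⟩ := hkc y
        obtain ⟨z, hz, hz'⟩ := hb m
        exact ⟨m, (hk hz'.le).trans hz, hm.trans (hk (by omega))⟩
    obtain ⟨n, hn1, hn2⟩ := hn
    obtain ⟨r, hr1, hr2, hr3⟩ := hf3 n y hn1 hn2
    refine ⟨toLex (t n, r), ?_⟩
    have h1 : ix (toLex (t n, r)) = n := by
      apply hixu
      · rw [Prod.Lex.le_iff]
        exact Or.inr ⟨rfl, hr1.le⟩
      · rw [Prod.Lex.lt_iff]
        rcases (ht (show n ≤ n + 1 by omega)).lt_or_eq with h | h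
        · exact Or.inl h
        · refine Or.inr ⟨h, ?_⟩
          show r < ((n + 1 : ℤ) : ℚ)
          push_cast
          exact hr2
    simp only [h1, ofLex_toLex, if_true, hr3]

end Maps

section Product

variable {L : Type u} [LinearOrder L]

/-- The lexicographic product of a strongly surjective linear order with the rationals is strongly
surjective. -/
theorem StronglySurjective.prod_rat (hL : StronglySurjective L) :
    StronglySurjective (L ×ₗ ℚ) := by
  classical
  intro K hK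
  obtain ⟨g, hg, hgs⟩ := hL {x | ∃ q : ℚ, toLex (x, q) ∈ K} (by
    obtain ⟨w, hw⟩ := hK
    exact ⟨(ofLex w).1, (ofLex w).2, hw⟩)
  have key : ∀ y : {x | ∃ q : ℚ, toLex (x, q) ∈ K}, ∃ f : {x // g x = y} ×ₗ ℚ →
      {q : ℚ // toLex (y.1, q) ∈ K}, Monotone f ∧ Function.Surjective f := by
    intro y
    have : Nonempty {q : ℚ // toLex (y.1, q) ∈ K} := by
      obtain ⟨q, hq⟩ := y.2
      exact ⟨⟨q, hq⟩⟩
    have hne : {x | g x = y}.Nonempty := hgs y
    obtain ⟨C, hC1, hC2, hC3⟩ := countable_cofinal hL {x | g x = y}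
    obtain ⟨D, hD1, hD2, hD3⟩ := countable_coinitial hL {x | g x = y}
    have hCne : C.Nonempty := by
      obtain ⟨x, hx⟩ := hne
      obtain ⟨c, hc, _⟩ := hC3 x hx
      exact ⟨c, hc⟩
    have hDne : D.Nonempty := by
      obtain ⟨x, hx⟩ := hne
      obtain ⟨c, hc, _⟩ := hD3 x hx
      exact ⟨c, hc⟩
    obtain ⟨c, hc⟩ := hC2.exists_eq_range hCne
    obtain ⟨d, hd⟩ := hD2.exists_eq_range hDne
    have hc' : ∀ n, g (c n) = y := fun n => hC1 (by rw [hc]; exact ⟨n, rfl⟩)
    have hd' : ∀ n, g (d n) = y := fun n => hD1 (by rw [hd]; exact ⟨n, rfl⟩)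
    refine prod_onto {x // g x = y} {q : ℚ // toLex (y.1, q) ∈ K}
      (fun n => ⟨c n, hc' n⟩) (fun n => ⟨d n, hd' n⟩) ?_ ?_
    · intro x
      obtain ⟨z, hz, hxz⟩ := hC3 x.1 x.2
      rw [hc] at hz
      obtain ⟨n, rfl⟩ := hz
      exact ⟨n, hxz⟩
    · intro x
      obtain ⟨z, hz, hxz⟩ := hD3 x.1 x.2
      rw [hd] at hz
      obtain ⟨n, rfl⟩ := hz
      exact ⟨n, hxz⟩
  choose f hf hfs using key
  refine ⟨fun w => ⟨toLex ((g (ofLex w).1).1, (f (g (ofLex w).1)
    (toLex (⟨(ofLex w).1, rfl⟩, (ofLex w).2))).1), (f (g (ofLex w).1)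
    (toLex (⟨(ofLex w).1, rfl⟩, (ofLex w).2))).2⟩, ?_, ?_⟩
  · have aux : ∀ (y y' : {x | ∃ q : ℚ, toLex (x, q) ∈ K}) (x x' : L) (hx : g x = y)
        (hx' : g x' = y') (q q' : ℚ), toLex (x, q) ≤ toLex (x', q') →
        (toLex (y.1, (f y (toLex (⟨x, hx⟩, q))).1) : L ×ₗ ℚ) ≤
          toLex (y'.1, (f y' (toLex (⟨x', hx'⟩, q'))).1) := by
      intro y y' x x' hx hx' q q' hle
      rw [Prod.Lex.le_iff]
      have h1 : x ≤ x' := by
        rcases Prod.Lex.le_iff.1 hle with h | ⟨h, _⟩
        · exact h.le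
        · exact h.le
      have h2 := hg h1
      rw [hx, hx'] at h2
      rcases h2.lt_or_eq with h2 | h2
      · exact Or.inl h2
      · subst h2
        refine Or.inr ⟨rfl, ?_⟩
        have h3 : (toLex (⟨x, hx⟩, q) : {x // g x = y} ×ₗ ℚ) ≤ toLex (⟨x', hx'⟩, q') := by
          rw [Prod.Lex.le_iff]
          rcases Prod.Lex.le_iff.1 hle with h | ⟨h, h'⟩
          · exact Or.inl h
          · exact Or.inr ⟨Subtype.ext h, h'⟩
        exact hf y h3
    intro w w' hw
    exact aux _ _ _ _ rfl rfl _ _ hw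
  · rintro ⟨w, hw⟩
    obtain ⟨z, hz⟩ := hfs ⟨(ofLex w).1, (ofLex w).2, hw⟩ ⟨(ofLex w).2, hw⟩
    obtain ⟨⟨x, hx⟩, q⟩ := z
    refine ⟨toLex (x, q), ?_⟩
    apply Subtype.ext
    have aux : ∀ (y : {x | ∃ q : ℚ, toLex (x, q) ∈ K}) (hx' : g x = y),
        (toLex (y.1, (f y (toLex (⟨x, hx'⟩, q))).1) : L ×ₗ ℚ) = toLex (y.1,
          (f y (toLex (⟨x, hx'⟩, q))).1) := fun _ _ => rfl
    have h1 : ∀ (y : {x | ∃ q : ℚ, toLex (x, q) ∈ K}) (hx' : g x = y),
        y = ⟨(ofLex w).1, (ofLex w).2, hw⟩ →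
        (toLex (y.1, (f y (toLex (⟨x, hx'⟩, q))).1) : L ×ₗ ℚ) = w := by
      rintro y hx' rfl
      have h2 : f ⟨(ofLex w).1, (ofLex w).2, hw⟩ (toLex (⟨x, hx'⟩, q)) =
        ⟨(ofLex w).2, hw⟩ := hz
      rw [h2]
      rfl
    exact h1 (g x) rfl hx

end Product

/-- Let `L` be an uncountable strongly surjective linear order. Then there is a strongly
surjective linear order `M` of the same cardinality, which contains a copy of `L`, is densely
ordered and has no end points, such that there are `|L|` many pairwise disjoint nonempty open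
intervals in `M`; in particular no countable subset of `M` is dense in the order topology. -/
theorem result (L : Type u) [LinearOrder L] [Uncountable L] (hL : StronglySurjective L) :
    ∃ (M : Type u) (_ : LinearOrder M), StronglySurjective M ∧ #M = #L ∧ Nonempty (L ↪o M) ∧
      DenselyOrdered M ∧ NoMinOrder M ∧ NoMaxOrder M ∧
      (∃ a b : L → M, (∀ x, (Ioo (a x) (b x)).Nonempty) ∧
        Pairwise fun x y => Disjoint (Ioo (a x) (b x)) (Ioo (a y) (b y))) ∧
      ∀ D : Set M, D.Countable → ¬ @Dense M (Preorder.topology M) D := by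
  classical
  have hdisj : Pairwise fun x y : L => Disjoint (Ioo (toLex (x, (0 : ℚ)) : L ×ₗ ℚ)
      (toLex (x, (1 : ℚ)))) (Ioo (toLex (y, (0 : ℚ)) : L ×ₗ ℚ) (toLex (y, (1 : ℚ)))) := by
    intro x y hxy
    rw [Set.disjoint_left]
    rintro w ⟨h1, h2⟩ ⟨h3, h4⟩
    have aux : ∀ z : L, toLex (z, (0 : ℚ)) < w → w < toLex (z, (1 : ℚ)) → (ofLex w).1 = z := by
      intro z h5 h6
      apply le_antisymm
      · rcases Prod.Lex.lt_iff.1 h6 with h | ⟨h, _⟩
        · exact h.le
        · exact h.le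
      · rcases Prod.Lex.lt_iff.1 h5 with h | ⟨h, _⟩
        · exact h.le
        · exact h.le
    exact hxy ((aux x h1 h2).symm.trans (aux y h3 h4))
  have hne : ∀ x : L, (Ioo (toLex (x, (0 : ℚ)) : L ×ₗ ℚ) (toLex (x, (1 : ℚ)))).Nonempty := by
    intro x
    refine ⟨toLex (x, 1 / 2), ?_, ?_⟩
    · rw [Prod.Lex.lt_iff]
      exact Or.inr ⟨rfl, by norm_num⟩
    · rw [Prod.Lex.lt_iff]
      exact Or.inr ⟨rfl, by norm_num⟩
  refine ⟨L ×ₗ ℚ, inferInstance, hL.prod_rat, ?_, ?_, inferInstance, inferInstance,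
    inferInstance, ⟨fun x => toLex (x, 0), fun x => toLex (x, 1), hne, hdisj⟩, ?_⟩
  · have h1 : #(L ×ₗ ℚ) = #(L × ℚ) := Cardinal.mk_congr ofLex
    rw [h1, Cardinal.mk_prod, Cardinal.mk_eq_aleph0 ℚ]
    simp only [lift_uzero, lift_aleph0]
    exact Cardinal.mul_aleph0_eq (Cardinal.aleph0_le_mk L)
  · refine ⟨OrderEmbedding.ofStrictMono (fun x => toLex (x, (0 : ℚ))) fun x y hxy => ?_⟩
    rw [Prod.Lex.lt_iff]
    exact Or.inl hxy
  · intro D hD hdense
    let : TopologicalSpace (L ×ₗ ℚ) := Preorder.topology _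
    have : OrderTopology (L ×ₗ ℚ) := ⟨rfl⟩
    have hmeet : ∀ x : L, ∃ w ∈ D, w ∈ Ioo (toLex (x, (0 : ℚ)) : L ×ₗ ℚ) (toLex (x, (1 : ℚ))) := by
      intro x
      obtain ⟨w, hw1, hw2⟩ := hdense.inter_open_nonempty _ isOpen_Ioo (hne x)
      exact ⟨w, hw2, hw1⟩
    choose w hwD hw using hmeet
    have hinj : Function.Injective fun x => (⟨w x, hwD x⟩ : D) := by
      intro x y hxy
      by_contra hne
      have h1 : w x = w y := congrArg Subtype.val hxy
      exact Set.disjoint_left.1 (hdisj hne) (hw x) (h1 ▸ hw y)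
    have : Countable D := hD
    exact not_countable (hinj.countable)

end Pool.Agent.Results.MP_af603d_lc.DenseNonCCC
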